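import Pool.Agent.Helper6.NX.GoalsA

set_option autoImplicit false

namespace Pool.Agent.Helper31.NX

open Equiv Filter Topology
open Pool.Agent.Helper6.NX

section
variable {G : Type} [Group G] [Fintype G]

theorem isLaw_prd {μ ν : G → ℝ} (hμ : IsLaw μ) (hν : IsLaw ν) : IsLaw (prd μ ν) := by
  refine ⟨fun z => mul_nonneg (hμ.1 _) (hν.1 _), ?_⟩
  unfold prd
  rw [Fintype.sum_prod_type]
  simp only
  have : ∀ x, ∑ y, μ x * ν y = μ x := fun x => by rw [← Finset.mul_sum, hν.2, mul_one]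
  rw [Finset.sum_congr rfl fun x _ => this x, hμ.2]

theorem conv_right (μ ν : G → ℝ) (g : G) : conv μ ν g = ∑ h, μ (g * h⁻¹) * ν h := by
  classical
  unfold conv law prd
  rw [Fintype.sum_prod_type_right]
  refine Finset.sum_congr rfl fun h _ => ?_
  simp only
  rw [Finset.sum_eq_single (g * h⁻¹)]
  · rw [if_pos (by group)]
  · intro a _ ha
    rw [if_neg]
    intro hc
    apply ha
    rw [← hc]; group
  · intro hc
    exact absurd (Finset.mem_univ _) hc

theorem conv_left (μ ν : G → ℝ) (g : G) : conv μ ν g = ∑ a, μ a * ν (a⁻¹ * g) := by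
  classical
  unfold conv law prd
  rw [Fintype.sum_prod_type]
  refine Finset.sum_congr rfl fun a _ => ?_
  simp only
  rw [Finset.sum_eq_single (a⁻¹ * g)]
  · rw [if_pos (by group)]
  · intro b _ hb
    rw [if_neg]
    intro hc
    apply hb
    rw [← hc]; group
  · intro hc
    exact absurd (Finset.mem_univ _) hc

theorem conv_assoc (μ ν κ : G → ℝ) : conv (conv μ ν) κ = conv μ (conv ν κ) := by
  funext g
  rw [conv_right, conv_right]
  have e1 : ∀ h, conv μ ν (g * h⁻¹) * κ h = ∑ k, μ (g * h⁻¹ * k⁻¹) * ν k * κ h := fun h => by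
    rw [conv_right, Finset.sum_mul]
  have e2 : ∀ m, μ (g * m⁻¹) * conv ν κ m = ∑ h, μ (g * m⁻¹) * ν (m * h⁻¹) * κ h := fun m => by
    rw [conv_right, Finset.mul_sum]
    exact Finset.sum_congr rfl fun h _ => by ring
  rw [Finset.sum_congr rfl fun h _ => e1 h, Finset.sum_congr rfl fun m _ => e2 m,
    Finset.sum_comm (f := fun m h => μ (g * m⁻¹) * ν (m * h⁻¹) * κ h)]
  refine Finset.sum_congr rfl fun h _ => ?_
  rw [← Equiv.sum_comp (Equiv.mulRight h) fun m => μ (g * m⁻¹) * ν (m * h⁻¹) * κ h]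
  refine Finset.sum_congr rfl fun k _ => ?_
  simp only [Equiv.coe_mulRight]
  have a1 : g * (k * h)⁻¹ = g * h⁻¹ * k⁻¹ := by group
  have a2 : k * h * h⁻¹ = k := by group
  rw [a1, a2]

theorem tv_right {μ ν ν' : G → ℝ} (hμ : IsLaw μ) :
    ∑ g, |conv μ ν g - conv μ ν' g| ≤ ∑ g, |ν g - ν' g| := by
  calc ∑ g, |conv μ ν g - conv μ ν' g|
      ≤ ∑ g, ∑ a, μ a * |ν (a⁻¹ * g) - ν' (a⁻¹ * g)| := by
        refine Finset.sum_le_sum fun g _ => ?_
        rw [conv_left, conv_left, ← Finset.sum_sub_distrib]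
        refine (Finset.abs_sum_le_sum_abs _ _).trans (Finset.sum_le_sum fun a _ => ?_)
        rw [← mul_sub, abs_mul, abs_of_nonneg (hμ.1 a)]
    _ = ∑ a, μ a * ∑ g, |ν (a⁻¹ * g) - ν' (a⁻¹ * g)| := by
        rw [Finset.sum_comm]
        exact Finset.sum_congr rfl fun a _ => (Finset.mul_sum _ _ _).symm
    _ = ∑ a, μ a * ∑ g, |ν g - ν' g| := by
        refine Finset.sum_congr rfl fun a _ => ?_
        rw [← Equiv.sum_comp (Equiv.mulLeft a⁻¹) fun g => |ν g - ν' g|]
        rfl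
    _ = ∑ g, |ν g - ν' g| := by rw [← Finset.sum_mul, hμ.2, one_mul]

theorem tv_left {μ ν ν' : G → ℝ} (hμ : IsLaw μ) :
    ∑ g, |conv ν μ g - conv ν' μ g| ≤ ∑ g, |ν g - ν' g| := by
  calc ∑ g, |conv ν μ g - conv ν' μ g|
      ≤ ∑ g, ∑ h, μ h * |ν (g * h⁻¹) - ν' (g * h⁻¹)| := by
        refine Finset.sum_le_sum fun g _ => ?_
        rw [conv_right, conv_right, ← Finset.sum_sub_distrib]
        refine (Finset.abs_sum_le_sum_abs _ _).trans (Finset.sum_le_sum fun h _ => ?_)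
        rw [← sub_mul, abs_mul, abs_of_nonneg (hμ.1 h), mul_comm]
    _ = ∑ h, μ h * ∑ g, |ν (g * h⁻¹) - ν' (g * h⁻¹)| := by
        rw [Finset.sum_comm]
        exact Finset.sum_congr rfl fun a _ => (Finset.mul_sum _ _ _).symm
    _ = ∑ h, μ h * ∑ g, |ν g - ν' g| := by
        refine Finset.sum_congr rfl fun h _ => ?_
        rw [← Equiv.sum_comp (Equiv.mulRight h⁻¹) fun g => |ν g - ν' g|]
        rfl
    _ = ∑ g, |ν g - ν' g| := by rw [← Finset.sum_mul, hμ.2, one_mul]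

end

theorem thmCV (hl2 : Pool.Agent.Helper6.NX.S_L2) (hl4 : Pool.Agent.Helper6.NX.S_L4)
    (hl5 : Pool.Agent.Helper6.NX.S_L5) (hl7 : Pool.Agent.Helper6.NX.S_L7) :
    Pool.Agent.Helper6.NX.S_CV := by
  intro G _ _ μ ν κ ν' hμ hν hκ hν'
  have hP := isLaw_prd hμ hν
  have h5 := hl5 (G × G) G G (prd μ ν) (fun z => z.1 * z.2) (fun g => g) hP
  have hH : H (conv μ ν) = ent (prd μ ν) (fun z => z.1 * z.2) := h5.2.2.1
  have h7 := (hl7 G G G Unit G μ (fun _ => ν) (fun _ g => g) (fun _ _ => ()) (fun g => g) hμ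
    (fun _ => hν)).2.2.2.2 ν (fun g => g) hν
  obtain ⟨_, h71, h72, h73⟩ := h7
  -- subadditivity
  have h0 : ent (prd μ ν) (fun _ => ()) = 0 := by
    have e : law (prd μ ν) (fun _ => ()) () = 1 := by
      unfold law
      simp only [if_true]
      exact hP.2
    unfold ent
    simp only [e, Real.log_one, mul_zero, Finset.sum_const_zero, neg_zero]
  have hsub : ∀ Y : G × G → G, ent (prd μ ν) (fun z => (z.1 * z.2, Y z)) ≤
      ent (prd μ ν) (fun z => z.1 * z.2) + ent (prd μ ν) Y := by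
    intro Y
    have h4 := (hl4 (G × G) G G Unit (prd μ ν) (fun z => z.1 * z.2) Y (fun _ => ()) hP).2
    have a1 := hl2 (G × G) (G × G × Unit) (G × G) (prd μ ν)
      (fun z => (z.1 * z.2, Y z, ())) (fun z => (z.1 * z.2, Y z)) hP
      (fun ω ω' _ _ h => by
        simp only [Prod.mk.injEq] at h ⊢
        exact ⟨h.1, h.2.1⟩)
    have a2 := hl2 (G × G) G (G × Unit) (prd μ ν)
      (fun z => z.1 * z.2) (fun z => (z.1 * z.2, ())) hP
      (fun ω ω' _ _ h => by
        simp only [Prod.mk.injEq, and_true] at h ⊢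
        exact h)
    have a3 := hl2 (G × G) G (G × Unit) (prd μ ν) Y (fun z => (Y z, ())) hP
      (fun ω ω' _ _ h => by
        simp only [Prod.mk.injEq, and_true] at h ⊢
        exact h)
    linarith
  have e1 : ent (prd μ ν) (fun z => (z.1, z.2)) = H μ + H ν := h71
  have e2 : ent (prd μ ν) (fun z => z.1) = H μ := h72
  have e3 : ent (prd μ ν) (fun z => z.2) = H ν := h73
  refine ⟨h5.1, fun g => conv_right μ ν g, conv_assoc μ ν κ, ?_, ?_, tv_right hμ, tv_left hμ⟩
  · have b1 := hsub (fun z => z.1)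
    have b2 := hl2 (G × G) (G × G) (G × G) (prd μ ν) (fun z => (z.1 * z.2, z.1))
      (fun z => (z.1, z.2)) hP (fun ω ω' _ _ h => by
        simp only [Prod.mk.injEq] at h ⊢
        obtain ⟨c1, c2⟩ := h
        rw [c2] at c1
        exact ⟨c2, mul_left_cancel c1⟩)
    rw [hH]
    linarith
  · have b1 := hsub (fun z => z.2)
    have b2 := hl2 (G × G) (G × G) (G × G) (prd μ ν) (fun z => (z.1 * z.2, z.2))
      (fun z => (z.1, z.2)) hP (fun ω ω' _ _ h => by
        simp only [Prod.mk.injEq] at h ⊢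
        obtain ⟨c1, c2⟩ := h
        rw [c2] at c1
        exact ⟨mul_right_cancel c1, c2⟩)
    rw [hH]
    linarith

end Pool.Agent.Helper31.NX
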